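import Pool.Agent.Helper54.S4.Stmts

/-!
STC: choice of the scale and of the position of a new half gate.
-/

namespace Pool.Agent.Helper54.S4

open Finset Pool.Agent.Helper54.SP

theorem stc_lin {A : ℝ} (hA : 0 < A) (B : ℝ) : ∀ᶠ k in Filter.atTop, 0 < A * k + B := by
  filter_upwards [Filter.eventually_gt_atTop (-B / A)] with k hk
  rw [div_lt_iff₀ hA] at hk
  linarith

theorem stc_all (n : ℕ) {P : ℕ → ℝ → Prop} (h : ∀ p, p < n → ∀ᶠ k in Filter.atTop, P p k) :
    ∀ᶠ k in Filter.atTop, ∀ p, p < n → P p k := by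
  have h1 : ∀ᶠ k in Filter.atTop, ∀ p ∈ Finset.range n, P p k := by
    rw [Filter.eventually_all_finset]
    intro p hp
    exact h p (Finset.mem_range.1 hp)
  filter_upwards [h1] with k hk p hp
  exact hk p (Finset.mem_range.2 hp)

theorem stc_imp {a : Prop} {P : ℝ → Prop} (h : a → ∀ᶠ k in Filter.atTop, P k) :
    ∀ᶠ k in Filter.atTop, a → P k := Filter.eventually_imp_distrib_left.2 h

theorem stc_DD (x y : ℕ → ℝ) (p q r : ℕ) (hp : p ≠ 0) (hq : q ≠ 0) (hr : r ≠ 0) :
    DD x y p q r = (x q - x p) * (y r - y p) - (x r - x p) * (y q - y p) := by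
  unfold DD hX hY hE
  rw [if_neg hp, if_neg hq, if_neg hr, if_neg hp, if_neg hq, if_neg hr, if_neg hp, if_neg hq,
    if_neg hr]
  ring

theorem stc_DD0 (x y : ℕ → ℝ) (q r : ℕ) (hq : q ≠ 0) (hr : r ≠ 0) :
    DD x y 0 q r = x r - x q := by
  unfold DD hX hY hE
  rw [if_pos rfl, if_neg hq, if_neg hr, if_pos rfl, if_neg hq, if_neg hr, if_pos rfl, if_neg hq,
    if_neg hr]
  ring

theorem stc_old (m : ℕ) (x ξ : ℕ → ℝ) (c k : ℝ) (p : ℕ) (hp : p < 3 + 6 * m) :
    xn m x ξ c k p = x p := by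
  unfold xn
  rw [if_pos hp]

theorem stc_new (m : ℕ) (x ξ : ℕ → ℝ) (c k : ℝ) (i : ℕ) :
    xn m x ξ c k (pt m i) = k + c * ξ i := by
  unfold xn pt
  rw [if_neg (by omega), Nat.add_sub_cancel_left]

theorem st_STC (hPT4 : ST_PT4) (hLV4 : ST_LV4) : ST_STC := by
  intro Γ nw y hWF hY m x z ξ hm _ _ hξ
  obtain ⟨l1, _, _, l4', l5, _⟩ := hLV4 Γ nw hWF
  have hN : 3 + 6 * m ≤ N4 Γ := by
    unfold N4
    omega
  have hξl : ∀ i j, i < j → j < 6 → ξ i < ξ j := by
    intro i j hij hj
    induction j with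
    | zero => omega
    | succ n ih =>
      rcases Nat.lt_succ_iff_lt_or_eq.1 hij with h | h
      · exact (ih h (by omega)).trans (hξ n (by omega))
      · rw [h]
        exact hξ n (by omega)
  have hYl : ∀ i j, i < j → j < 6 → y (pt m i) < y (pt m j) := by
    intro i j hij hj
    have hgi := (hPT4.1 m i (by omega)).1
    have hgj := (hPT4.1 m j hj).1
    have hlt : pt m i < pt m j := by
      unfold pt
      omega
    have hjN : pt m j < N4 Γ := by
      unfold pt N4
      omega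
    have h3 : 3 ≤ pt m i := (hPT4.1 m i (by omega)).2.2.2
    exact hY.yo _ _ (by omega) (by omega) (by omega) hjN
      (l5 _ _ h3 hlt hjN (by rw [hgi, hgj]))
  -- signs
  have hs : ∀ p q, 2 ≤ p → p < q → q < 3 + 6 * m →
      0 < sb (decide (lv Γ nw q < lv Γ nw p)) * (y p - y q) := by
    intro p q hp hpq hq
    by_cases h : lv Γ nw q < lv Γ nw p
    · have h1 := hY.yo q p (by omega) hp (by omega) (by omega) h
      unfold sb
      rw [decide_eq_true h, if_pos rfl]
      linarith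
    · have hne : lv Γ nw p ≠ lv Γ nw q := fun he => by
        have := l4' p q (by omega) (by omega) (by omega) (by omega) he
        omega
      have h1 := hY.yo p q hp (by omega) (by omega) (by omega) (by omega)
      unfold sb
      rw [decide_eq_false h, if_neg (by decide)]
      linarith
  have hs0 : ∀ q, 2 ≤ q → q < 3 + 6 * m → sb (decide (lv Γ nw q < lv Γ nw 0)) = 1 := by
    intro q hq hq2
    unfold sb
    rw [decide_eq_true (l1 q (by omega) (by omega)), if_pos rfl]
  have hpt0 : ∀ i, pt m i ≠ 0 := by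
    intro i
    unfold pt
    omega
  -- step 1
  have step1 : ∀ᶠ c in Filter.atTop, ∀ p, p < 3 + 6 * m → ∀ q, q < 3 + 6 * m → ∀ i, i < 6 →
      ∀ j, j < 6 → (2 ≤ p ∧ p < q ∧ i < j) →
      0 < sb (decide (lv Γ nw q < lv Γ nw p)) * ((y (pt m j) - y (pt m i)) * (x p - x q) +
        c * (ξ i - ξ j) * (y q - y p)) := by
    refine stc_all _ (fun p hp => stc_all _ (fun q hq => stc_all _ (fun i hi =>
      stc_all _ (fun j hj => stc_imp ?_))))
    rintro ⟨hp2, hpq, hij⟩
    have h1 := hs p q hp2 hpq hq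
    have h2 := hξl i j hij hj
    have hA : 0 < (ξ j - ξ i) * (sb (decide (lv Γ nw q < lv Γ nw p)) * (y p - y q)) :=
      mul_pos (by linarith) h1
    filter_upwards [stc_lin hA (sb (decide (lv Γ nw q < lv Γ nw p)) *
      ((y (pt m j) - y (pt m i)) * (x p - x q)))] with c hc
    have e : sb (decide (lv Γ nw q < lv Γ nw p)) * ((y (pt m j) - y (pt m i)) * (x p - x q) +
        c * (ξ i - ξ j) * (y q - y p)) =
        (ξ j - ξ i) * (sb (decide (lv Γ nw q < lv Γ nw p)) * (y p - y q)) * c +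
        sb (decide (lv Γ nw q < lv Γ nw p)) * ((y (pt m j) - y (pt m i)) * (x p - x q)) := by
      ring
    rw [e]
    exact hc
  obtain ⟨c, hc1, hc0⟩ := (step1.and (Filter.eventually_gt_atTop (0 : ℝ))).exists
  -- step 2
  have hkx : ∀ᶠ k in Filter.atTop, ∀ p, p < 3 + 6 * m → 2 * x p < k :=
    stc_all _ (fun p _ => Filter.eventually_gt_atTop (2 * x p))
  have hp1 : ∀ᶠ k in Filter.atTop, ∀ p, p < 3 + 6 * m → ∀ q, q < 3 + 6 * m → ∀ i, i < 6 →
      (p ≠ 1 ∧ q ≠ 1 ∧ p < q) →
      0 < sb (decide (lv Γ nw q < lv Γ nw p)) * DD (xn m x ξ c k) y p q (pt m i) := by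
    refine stc_all _ (fun p hp => stc_all _ (fun q hq => stc_all _ (fun i hi =>
      stc_imp ?_)))
    rintro ⟨hp1, hq1, hpq⟩
    rcases Nat.eq_zero_or_pos p with h0 | h0
    · subst h0
      filter_upwards [stc_lin (one_pos) (c * ξ i - x q)] with k hk
      rw [hs0 q (by omega) hq, stc_DD0 _ _ _ _ (by omega) (hpt0 i), stc_old _ _ _ _ _ _ hq,
        stc_new]
      linarith
    · have hp2 : 2 ≤ p := by omega
      filter_upwards [stc_lin (hs p q hp2 hpq hq) (sb (decide (lv Γ nw q < lv Γ nw p)) *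
        ((x q - x p) * (y (pt m i) - y p) - (c * ξ i - x p) * (y q - y p)))] with k hk
      rw [stc_DD _ _ _ _ _ (by omega) (by omega) (hpt0 i), stc_old _ _ _ _ _ _ hq,
        stc_old _ _ _ _ _ _ hp, stc_new]
      have e : sb (decide (lv Γ nw q < lv Γ nw p)) * ((x q - x p) * (y (pt m i) - y p) -
          (k + c * ξ i - x p) * (y q - y p)) =
          sb (decide (lv Γ nw q < lv Γ nw p)) * (y p - y q) * k +
          sb (decide (lv Γ nw q < lv Γ nw p)) *
        ((x q - x p) * (y (pt m i) - y p) - (c * ξ i - x p) * (y q - y p)) := by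
        ring
      rw [e]
      exact hk
  have hp2 : ∀ᶠ k in Filter.atTop, ∀ p, p < 3 + 6 * m → ∀ i, i < 6 → ∀ j, j < 6 →
      (p ≠ 1 ∧ i < j) → 0 < DD (xn m x ξ c k) y p (pt m i) (pt m j) := by
    refine stc_all _ (fun p hp => stc_all _ (fun i hi => stc_all _ (fun j hj =>
      stc_imp ?_)))
    rintro ⟨hp1, hij⟩
    rcases Nat.eq_zero_or_pos p with h0 | h0
    · subst h0
      refine Filter.Eventually.of_forall (fun k => ?_)
      rw [stc_DD0 _ _ _ _ (hpt0 i) (hpt0 j), stc_new, stc_new]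
      have h2 : 0 < c * (ξ j - ξ i) := mul_pos hc0 (by linarith [hξl i j hij hj])
      linarith
    · have hA : 0 < y (pt m j) - y (pt m i) := by linarith [hYl i j hij hj]
      filter_upwards [stc_lin hA ((c * ξ i - x p) * (y (pt m j) - y p) -
        (c * ξ j - x p) * (y (pt m i) - y p))] with k hk
      rw [stc_DD _ _ _ _ _ (by omega) (hpt0 i) (hpt0 j), stc_old _ _ _ _ _ _ hp, stc_new,
        stc_new]
      have e : (k + c * ξ i - x p) * (y (pt m j) - y p) -
          (k + c * ξ j - x p) * (y (pt m i) - y p) =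
          (y (pt m j) - y (pt m i)) * k + ((c * ξ i - x p) * (y (pt m j) - y p) -
        (c * ξ j - x p) * (y (pt m i) - y p)) := by
        ring
      rw [e]
      exact hk
  have hq2 : ∀ᶠ k in Filter.atTop, ∀ p, p < 3 + 6 * m → ∀ q, q < 3 + 6 * m → ∀ i, i < 6 →
      ∀ j, j < 6 → (p ≠ 1 ∧ q ≠ 1 ∧ p < q ∧ i < j) →
      0 < sb (decide (lv Γ nw q < lv Γ nw p)) *
      ((k / 2 * hE q - hX x q) * DD (xn m x ξ c k) y p (pt m i) (pt m j) -
        (k / 2 * hE p - hX x p) * DD (xn m x ξ c k) y q (pt m i) (pt m j)) := by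
    refine stc_all _ (fun p hp => stc_all _ (fun q hq => stc_all _ (fun i hi =>
      stc_all _ (fun j hj => stc_imp ?_))))
    rintro ⟨hp1, hq1, hpq, hij⟩
    have hq0 : q ≠ 0 := by omega
    rcases Nat.eq_zero_or_pos p with h0 | h0
    · subst h0
      have hA : 0 < c * (ξ j - ξ i) / 2 := by
        have : 0 < c * (ξ j - ξ i) := mul_pos hc0 (by linarith [hξl i j hij hj])
        linarith
      filter_upwards [stc_lin hA (-(x q * (c * (ξ j - ξ i))))] with k hk
      rw [hs0 q (by omega) hq, stc_DD0 _ _ _ _ (hpt0 i) (hpt0 j), stc_new, stc_new]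
      have e1 : hE q = 1 := by
        unfold hE
        rw [if_neg hq0]
      have e2 : hX x q = x q := by
        unfold hX
        rw [if_neg hq0]
      have e3 : hE 0 = 0 := by
        unfold hE
        rw [if_pos rfl]
      have e4 : hX x 0 = 0 := by
        unfold hX
        rw [if_pos rfl]
      rw [e1, e2, e3, e4]
      have e : 1 * ((k / 2 * 1 - x q) * (k + c * ξ j - (k + c * ξ i)) -
          (k / 2 * 0 - 0) * DD (xn m x ξ c k) y q (pt m i) (pt m j)) =
          c * (ξ j - ξ i) / 2 * k + -(x q * (c * (ξ j - ξ i))) := by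
        ring
      rw [e]
      exact hk
    · have hp0 : p ≠ 0 := by omega
      have h1 := hc1 p hp q hq i hi j hj ⟨by omega, hpq, hij⟩
      have hA : 0 < sb (decide (lv Γ nw q < lv Γ nw p)) * ((y (pt m j) - y (pt m i)) *
        (x p - x q) + c * (ξ i - ξ j) * (y q - y p)) / 2 := by linarith
      filter_upwards [stc_lin hA (sb (decide (lv Γ nw q < lv Γ nw p)) *
        (c * (x p * (ξ i * (y (pt m j) - y q) - ξ j * (y (pt m i) - y q)) -
          x q * (ξ i * (y (pt m j) - y p) - ξ j * (y (pt m i) - y p)))))] with k hk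
      rw [stc_DD _ _ _ _ _ hp0 (hpt0 i) (hpt0 j), stc_DD _ _ _ _ _ hq0 (hpt0 i) (hpt0 j),
        stc_old _ _ _ _ _ _ hp, stc_old _ _ _ _ _ _ hq, stc_new, stc_new]
      have e1 : hE q = 1 := by
        unfold hE
        rw [if_neg hq0]
      have e2 : hX x q = x q := by
        unfold hX
        rw [if_neg hq0]
      have e3 : hE p = 1 := by
        unfold hE
        rw [if_neg hp0]
      have e4 : hX x p = x p := by
        unfold hX
        rw [if_neg hp0]
      rw [e1, e2, e3, e4]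
      have e : sb (decide (lv Γ nw q < lv Γ nw p)) *
          ((k / 2 * 1 - x q) * ((k + c * ξ i - x p) * (y (pt m j) - y p) -
            (k + c * ξ j - x p) * (y (pt m i) - y p)) -
          (k / 2 * 1 - x p) * ((k + c * ξ i - x q) * (y (pt m j) - y q) -
            (k + c * ξ j - x q) * (y (pt m i) - y q))) =
          sb (decide (lv Γ nw q < lv Γ nw p)) * ((y (pt m j) - y (pt m i)) *
        (x p - x q) + c * (ξ i - ξ j) * (y q - y p)) / 2 * k +
          (sb (decide (lv Γ nw q < lv Γ nw p)) *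
        (c * (x p * (ξ i * (y (pt m j) - y q) - ξ j * (y (pt m i) - y q)) -
          x q * (ξ i * (y (pt m j) - y p) - ξ j * (y (pt m i) - y p))))) := by
        ring
      rw [e]
      exact hk
  obtain ⟨k, ⟨⟨⟨hk1, hk2⟩, hk3⟩, hk4⟩, hk0⟩ :=
    ((((hkx.and hp1).and hp2).and hq2).and (Filter.eventually_gt_atTop (0 : ℝ))).exists
  refine ⟨c, k, ⟨hc0, hk0, ?_, ?_, ?_, ?_⟩⟩
  · intro p _ hp
    exact hk1 p hp
  · intro p q i hp1 hq1 hpq hq hi
    exact hk2 p (by omega) q hq i hi ⟨hp1, hq1, hpq⟩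
  · intro p i j hp1 hp hij hj
    exact hk3 p hp i (by omega) j hj ⟨hp1, hij⟩
  · intro p q i j hp1 hq1 hpq hq hij hj
    exact hk4 p (by omega) q hq i (by omega) j hj ⟨hp1, hq1, hpq, hij⟩

end Pool.Agent.Helper54.S4
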