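import Pool.Agent.Helper54.S4.Stmts

/-!
WI4: the wires of a half gate.
-/

namespace Pool.Agent.Helper54.S4

open Finset Pool.Agent.Helper54.SP

theorem wi4_0 (Γ : List Gt) (nw j : ℕ) : wi Γ nw j 0 = 2 * (j / 4) := by
  unfold wi
  rw [if_pos rfl]

theorem wi4_1 (Γ : List Gt) (nw j : ℕ) : wi Γ nw j 1 = 2 * (j / 4) + 1 := by
  unfold wi
  rw [if_neg (by decide), if_pos rfl]

theorem wi4_2 (Γ : List Gt) (nw j : ℕ) :
    wi Γ nw j 2 = 2 * Γ.length + (if (ga Γ j).k then 1 else 0) := by
  unfold wi
  rw [if_neg (by decide), if_neg (by decide), if_pos rfl]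

theorem wi4_3 (Γ : List Gt) (nw j : ℕ) :
    wi Γ nw j 3 = 2 * Γ.length + 2 + (if j % 4 < 2 then (ga Γ j).u else (ga Γ j).a) := by
  unfold wi
  rw [if_neg (by decide), if_neg (by decide), if_neg (by decide), if_pos rfl]

theorem wi4_4 (Γ : List Gt) (nw j : ℕ) :
    wi Γ nw j 4 = 2 * Γ.length + 2 + (if j % 4 < 2 then (ga Γ j).u' else (ga Γ j).a') := by
  unfold wi
  rw [if_neg (by decide), if_neg (by decide), if_neg (by decide), if_neg (by decide), if_pos rfl]

theorem wi4_5 (Γ : List Gt) (nw j : ℕ) : wi Γ nw j 5 = 2 * Γ.length + 2 + nw := by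
  unfold wi
  rw [if_neg (by decide), if_neg (by decide), if_neg (by decide), if_neg (by decide),
    if_neg (by decide)]

theorem wi4_mem (Γ : List Gt) (j : ℕ) (hj : j < 4 * Γ.length) : ga Γ j ∈ Γ := by
  unfold ga
  have h : j / 4 < Γ.length := by omega
  rw [List.getD_eq_getElem _ _ h]
  exact List.getElem_mem h

theorem wi4_ga (Γ : List Gt) (j j' : ℕ) (h : j / 4 = j' / 4) : ga Γ j = ga Γ j' := by
  unfold ga
  rw [h]

theorem wi4_k (g : Gt) : (if g.k then 1 else 0) ≤ 1 := by
  split_ifs <;> omega

theorem wi4_all (Γ : List Gt) (nw j j' i : ℕ) (h : j / 2 = j' / 2) :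
    wi Γ nw j i = wi Γ nw j' i := by
  have h4 : j / 4 = j' / 4 := by omega
  have hp : (j % 4 < 2) = (j' % 4 < 2) := by
    apply propext
    omega
  unfold wi
  simp only [wi4_ga Γ j j' h4, h4, hp]

theorem st_WI4 : ST_WI4 := by
  intro Γ nw hWF j hj
  have hmem := wi4_mem Γ j hj
  have hw := hWF.wires _ hmem
  have hc := hWF.clt _ hmem
  obtain ⟨hw1, hw2, hw3, hw4, -, -, -, -⟩ := hw
  have hk := wi4_k (ga Γ j)
  refine ⟨?_, ?_, ?_, ?_, ?_, hmem, ?_, ?_, ?_⟩
  · intro i hi
    interval_cases i
    · change wi Γ nw j 0 < wi Γ nw j 1
      rw [wi4_0, wi4_1]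
      omega
    · change wi Γ nw j 1 < wi Γ nw j 2
      rw [wi4_1, wi4_2]
      omega
    · change wi Γ nw j 2 < wi Γ nw j 3
      rw [wi4_2, wi4_3]
      omega
    · change wi Γ nw j 3 < wi Γ nw j 4
      rw [wi4_3, wi4_4]
      split_ifs <;> omega
    · change wi Γ nw j 4 < wi Γ nw j 5
      rw [wi4_4, wi4_5]
      split_ifs <;> omega
  · rw [wi4_5]
    omega
  · unfold rn
    omega
  · rw [wi4_1]
    omega
  · rw [wi4_2]
    omega
  · intro j' hj' hrn
    unfold rn at hrn
    have h1 : (ga Γ j).c = (ga Γ j').c := by omega
    have h2 : j / 4 = j' / 4 := hWF.cinj (j / 4) (j' / 4) (by omega) (by omega) h1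
    omega
  · intro j' hjj
    have h4 : j / 4 = j' / 4 := by omega
    have hp : (j % 4 < 2) = (j' % 4 < 2) := by
      apply propext
      omega
    have hou : ou j = ou j' := by
      unfold ou
      simp only [hp]
    refine ⟨fun i => wi4_all Γ nw j j' i hjj, ?_, hou, ?_⟩
    · unfold rn
      rw [wi4_ga Γ j j' h4]
      omega
    · intro hne i
      unfold pu
      rw [hou]
      by_cases hi : i = ou j'
      · rw [if_pos hi, if_pos hi, ← decide_not]
        congr 1
        apply propext
        omega
      · rw [if_neg hi, if_neg hi, ← decide_not]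
        congr 1
        apply propext
        omega
  · intro j' i hj' hi heq
    have hmem' := wi4_mem Γ j' hj'
    obtain ⟨hv1, hv2, hv3, hv4, -, -, -, -⟩ := hWF.wires _ hmem'
    have hk' := wi4_k (ga Γ j')
    by_cases hp : j % 4 < 2
    · have hou : ou j = 0 := by
        unfold ou
        rw [if_pos hp]
      rw [hou, wi4_0] at heq
      rw [hou]
      interval_cases i
      · rw [wi4_0] at heq
        have h4 : j / 4 = j' / 4 := by omega
        by_cases hp' : j' % 4 < 2
        · left
          omega
        · right
          constructor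
          · unfold rn
            rw [wi4_ga Γ j j' h4]
            omega
          · unfold ou
            rw [if_neg hp']
            decide
      · rw [wi4_1] at heq
        omega
      · rw [wi4_2] at heq
        omega
      · rw [wi4_3] at heq
        omega
      · rw [wi4_4] at heq
        omega
      · rw [wi4_5] at heq
        omega
    · have hou : ou j = 4 := by
        unfold ou
        rw [if_neg hp]
      rw [hou, wi4_4, if_neg hp] at heq
      rw [hou]
      have htopo := hWF.topo _ hmem _ hmem'
      interval_cases i
      · rw [wi4_0] at heq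
        omega
      · rw [wi4_1] at heq
        omega
      · rw [wi4_2] at heq
        omega
      · rw [wi4_3] at heq
        right
        have hcc : (ga Γ j).c < (ga Γ j').c := by
          apply htopo
          by_cases hp' : j' % 4 < 2
          · rw [if_pos hp'] at heq
            left
            omega
          · rw [if_neg hp'] at heq
            right
            right
            omega
        constructor
        · unfold rn
          omega
        · unfold ou
          split_ifs <;> decide
      · rw [wi4_4] at heq
        by_cases hp' : j' % 4 < 2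
        · right
          rw [if_pos hp'] at heq
          have hcc : (ga Γ j).c < (ga Γ j').c := by
            apply htopo
            right
            left
            omega
          constructor
          · unfold rn
            omega
          · unfold ou
            rw [if_pos hp']
            decide
        · left
          rw [if_neg hp'] at heq
          have h2 : (ga Γ j).a' = (ga Γ j').a' := by omega
          have h4 : j / 4 = j' / 4 := hWF.out (j / 4) (j' / 4) (by omega) (by omega) h2
          constructor
          · omega
          · rfl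
      · rw [wi4_5] at heq
        omega

end Pool.Agent.Helper54.S4
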